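import Pool.Agent.W872.SV.Stm

set_option autoImplicit false

namespace Pool.Agent.W18.SV.NUMc

open Finset W872.SV

theorem small {n : ℕ} (hn : 30000 ≤ n) : n ≤ 2 ^ (n / 2000) := by
  have h : ∀ q : ℕ, 15 ≤ q → 2000 * (q + 1) ≤ 2 ^ q := by
    intro q hq
    induction q, hq using Nat.le_induction with
    | base => norm_num
    | succ q hq ih =>
      rw [pow_succ]
      omega
  have h1 : 15 ≤ n / 2000 := by omega
  have h2 := h _ h1
  have h3 : n < 2000 * (n / 2000 + 1) := by omega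
  omega

theorem arA {n : ℕ} (hn : 30000 ≤ n) :
    n / 2000 * (n + 4) + n ^ 2 / 300 ≤ n / 240 * (n - 2 * (n / 240)) := by
  have hn' : (30000 : ℝ) ≤ n := by exact_mod_cast hn
  have h1 : ((n / 240 : ℕ) : ℝ) ≤ (n : ℝ) / 240 := Nat.cast_div_le
  have h2 : (n : ℝ) / 240 - 1 ≤ ((n / 240 : ℕ) : ℝ) := by
    have : n < 240 * (n / 240 + 1) := by omega
    have h : (n : ℝ) < 240 * (((n / 240 : ℕ) : ℝ) + 1) := by exact_mod_cast this
    linarith
  have h3 : ((n / 2000 : ℕ) : ℝ) ≤ (n : ℝ) / 2000 := Nat.cast_div_le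
  have h4 : ((n ^ 2 / 300 : ℕ) : ℝ) ≤ (n : ℝ) ^ 2 / 300 := by
    have := @Nat.cast_div_le ℝ _ _ _ (n ^ 2) 300
    simpa using this
  have h5 : 2 * (n / 240) ≤ n := by omega
  have key : (((n / 2000 * (n + 4) + n ^ 2 / 300 : ℕ)) : ℝ) ≤
      ((n / 240 * (n - 2 * (n / 240)) : ℕ) : ℝ) := by
    rw [Nat.cast_add, Nat.cast_mul, Nat.cast_mul, Nat.cast_sub h5, Nat.cast_mul, Nat.cast_add]
    have e1 : ((n / 2000 : ℕ) : ℝ) * ((n : ℝ) + (4 : ℕ)) ≤ (n : ℝ) / 2000 * ((n : ℝ) + (4 : ℕ)) :=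
      mul_le_mul_of_nonneg_right h3 (by positivity)
    have e2 : ((n : ℝ) / 240 - 1) * (119 / 120 * n) ≤
        ((n / 240 : ℕ) : ℝ) * ((n : ℝ) - (2 : ℕ) * ((n / 240 : ℕ) : ℝ)) := by
      apply mul_le_mul h2 _ (by positivity) (by positivity)
      push_cast
      linarith
    have e3 : (n : ℝ) / 2000 * ((n : ℝ) + (4 : ℕ)) + (n : ℝ) ^ 2 / 300 ≤
        ((n : ℝ) / 240 - 1) * (119 / 120 * n) := by
      push_cast
      nlinarith
    linarith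
  exact_mod_cast key

theorem arB {n : ℕ} (hn : 30000 ≤ n) :
    4 * ((n - 2) / 4) * (1 + 2 * (n / 2000)) + n * ((n - 2) / 4) + 8 * (n / 2000) +
      4 * (n ^ 2 / 300) ≤ 4 * ((n - 2) / 4 * (n - (n - 2) / 4)) := by
  have hn' : (30000 : ℝ) ≤ n := by exact_mod_cast hn
  obtain ⟨u, hu⟩ : ∃ u, u = (n - 2) / 4 := ⟨_, rfl⟩
  rw [← hu]
  have u1 : 4 * u ≤ n := by omega
  have u2 : n ≤ 4 * u + 5 := by omega
  have h1 : 4 * (u : ℝ) ≤ n := by exact_mod_cast u1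
  have h2 : (n : ℝ) ≤ 4 * u + 5 := by exact_mod_cast u2
  have h3 : ((n / 2000 : ℕ) : ℝ) ≤ (n : ℝ) / 2000 := Nat.cast_div_le
  have h4 : ((n ^ 2 / 300 : ℕ) : ℝ) ≤ (n : ℝ) ^ 2 / 300 := by
    have := @Nat.cast_div_le ℝ _ _ _ (n ^ 2) 300
    simpa using this
  have hu0 : (0 : ℝ) ≤ u := Nat.cast_nonneg u
  have hk0 : (0 : ℝ) ≤ ((n / 2000 : ℕ) : ℝ) := Nat.cast_nonneg _
  have h5 : u ≤ n := by omega
  have key : ((4 * u * (1 + 2 * (n / 2000)) + n * u + 8 * (n / 2000) +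
      4 * (n ^ 2 / 300) : ℕ) : ℝ) ≤ ((4 * (u * (n - u)) : ℕ) : ℝ) := by
    rw [Nat.cast_mul 4 (u * (n - u)), Nat.cast_mul u, Nat.cast_sub h5]
    rw [Nat.cast_add, Nat.cast_add, Nat.cast_add, Nat.cast_mul, Nat.cast_mul 4 u,
      Nat.cast_add 1, Nat.cast_mul 2, Nat.cast_mul n, Nat.cast_mul 8, Nat.cast_mul 4 (n ^ 2 / 300)]
    have e1 : 4 * (u : ℝ) * (1 + 2 * ((n / 2000 : ℕ) : ℝ)) ≤ n * (1 + 2 * ((n : ℝ) / 2000)) :=
      mul_le_mul h1 (by linarith) (by positivity) (by positivity)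
    have e2 : (u : ℝ) * (2 * n) ≤ (u : ℝ) * (3 * n - 4 * u) :=
      mul_le_mul_of_nonneg_left (by linarith) hu0
    have e3 : ((n : ℝ) - 5) / 4 * (2 * n) ≤ (u : ℝ) * (2 * n) :=
      mul_le_mul_of_nonneg_right (by linarith) (by positivity)
    push_cast at *
    nlinarith
  exact_mod_cast key

theorem main : PartNUM := by
  refine ⟨30000, ?_⟩
  intro n hn a b N hA hB hN
  have hs := small hn
  set C := n.choose 2 with hC
  set E := n ^ 2 / 300 with hE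
  -- case A
  have h1 : a * 2 ^ E ≤ 2 ^ C := by
    have f1 : n ^ 4 * n.factorial ≤ 2 ^ (n / 2000 * (n + 4)) := by
      calc n ^ 4 * n.factorial ≤ n ^ 4 * n ^ n := Nat.mul_le_mul_left _ (Nat.factorial_le_pow n)
        _ = n ^ (n + 4) := by rw [← pow_add, add_comm]
        _ ≤ (2 ^ (n / 2000)) ^ (n + 4) := Nat.pow_le_pow_left hs _
        _ = _ := by rw [← pow_mul]
    have f2 : 2 ^ (n / 2000 * (n + 4)) * (a * 2 ^ E) ≤ 2 ^ (n / 2000 * (n + 4)) * 2 ^ C := by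
      calc 2 ^ (n / 2000 * (n + 4)) * (a * 2 ^ E) = a * 2 ^ (n / 2000 * (n + 4) + E) := by
            rw [pow_add]; ring
        _ ≤ a * 2 ^ (n / 240 * (n - 2 * (n / 240))) :=
            Nat.mul_le_mul_left _ (Nat.pow_le_pow_right (by norm_num) (arA hn))
        _ ≤ n ^ 4 * n.factorial * 2 ^ C := hA
        _ ≤ _ := Nat.mul_le_mul_right _ f1
    exact Nat.le_of_mul_le_mul_left f2 (by positivity)
  -- case B
  have h2 : b * 2 ^ E ≤ 2 ^ C := by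
    obtain ⟨u, hu⟩ : ∃ u, u = (n - 2) / 4 := ⟨_, rfl⟩
    have ar := arB hn
    rw [← hu] at hB ar
    obtain ⟨k, hk⟩ : ∃ k, k = n / 2000 := ⟨_, rfl⟩
    rw [← hk] at hs ar
    have g1 : (b * 2 ^ (u * (n - u))) ^ 4 ≤ 2 ^ (4 * u * (1 + 2 * k) + n * u + 8 * k) * 2 ^ (4 * C) := by
      calc (b * 2 ^ (u * (n - u))) ^ 4 ≤ ((2 * n ^ 2 * N) ^ u * (n ^ 2 * 2 ^ C)) ^ 4 :=
            Nat.pow_le_pow_left hB 4
        _ = ((2 * n ^ 2) ^ (4 * u) * (N ^ 4) ^ u * n ^ 8) * 2 ^ (4 * C) := by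
            rw [mul_pow, mul_pow (n ^ 2), ← pow_mul, ← pow_mul 2 C 4, mul_pow (2 * n ^ 2) N,
              ← pow_mul n 2 4, ← pow_mul N 4 u, mul_comm C 4, mul_comm u 4]
            ring
        _ ≤ ((2 * (2 ^ k) ^ 2) ^ (4 * u) * (2 ^ n) ^ u * (2 ^ k) ^ 8) * 2 ^ (4 * C) := by
            gcongr
        _ = _ := by
            have e1 : (2 * (2 ^ k) ^ 2 : ℕ) = 2 ^ (1 + 2 * k) := by
              rw [pow_add, pow_one, ← pow_mul, mul_comm k 2]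
            rw [e1, ← pow_mul, ← pow_mul, ← pow_mul, ← pow_add, ← pow_add]
            congr 2
            ring
    have g2 : (b * 2 ^ E) ^ 4 ≤ (2 ^ C) ^ 4 := by
      have g3 : 2 ^ (4 * u * (1 + 2 * k) + n * u + 8 * k) * (b * 2 ^ E) ^ 4 ≤
          2 ^ (4 * u * (1 + 2 * k) + n * u + 8 * k) * (2 ^ C) ^ 4 := by
        calc 2 ^ (4 * u * (1 + 2 * k) + n * u + 8 * k) * (b * 2 ^ E) ^ 4
            = b ^ 4 * 2 ^ (4 * u * (1 + 2 * k) + n * u + 8 * k + 4 * E) := by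
              rw [mul_pow, ← pow_mul, mul_comm E 4, pow_add _ _ (4 * E)]; ring
          _ ≤ b ^ 4 * 2 ^ (4 * (u * (n - u))) :=
              Nat.mul_le_mul_left _ (Nat.pow_le_pow_right (by norm_num) ar)
          _ = (b * 2 ^ (u * (n - u))) ^ 4 := by
              rw [mul_pow, ← pow_mul, mul_comm (u * (n - u)) 4]
          _ ≤ _ := g1
          _ = _ := by rw [← pow_mul 2 C 4, mul_comm C 4]
      exact Nat.le_of_mul_le_mul_left g3 (by positivity)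
    exact (Nat.pow_le_pow_iff_left (by norm_num)).1 g2
  -- conclusion
  have h3 : (a + b) * 2 ^ E ≤ 2 ^ (C + 1) := by
    rw [add_mul, pow_succ]
    omega
  have hn' : (30000 : ℝ) ≤ n := by exact_mod_cast hn
  have hE1 : (n : ℝ) ^ 2 / 300 - 1 ≤ (E : ℝ) := by
    have : n ^ 2 < 300 * (E + 1) := by omega
    have h : (n : ℝ) ^ 2 < 300 * ((E : ℝ) + 1) := by exact_mod_cast this
    linarith
  have hC1 : (C : ℝ) ≤ (n : ℝ) ^ 2 / 2 := by
    have e : C = n * (n - 1) / 2 := Nat.choose_two_right n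
    have e2 : 2 * C ≤ n ^ 2 := by
      rw [e]
      have : n * (n - 1) ≤ n ^ 2 := by
        rw [sq]; exact Nat.mul_le_mul_left _ (Nat.sub_le _ _)
      omega
    have h : 2 * (C : ℝ) ≤ (n : ℝ) ^ 2 := by exact_mod_cast e2
    linarith
  have h4 : ((a + b : ℕ) : ℝ) * (2 : ℝ) ^ (E : ℝ) ≤ (2 : ℝ) ^ ((C : ℝ) + 1) := by
    have : (((a + b) * 2 ^ E : ℕ) : ℝ) ≤ ((2 ^ (C + 1) : ℕ) : ℝ) := by exact_mod_cast h3
    rw [Nat.cast_mul, Nat.cast_pow, Nat.cast_pow] at this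
    rw [Real.rpow_natCast]
    have e : (2 : ℝ) ^ ((C : ℝ) + 1) = (2 : ℝ) ^ (C + 1) := by
      rw [← Real.rpow_natCast]; push_cast; rfl
    rw [e]
    exact_mod_cast this
  have h5 : (2 : ℝ) ^ ((C : ℝ) + 1) ≤ (2 : ℝ) ^ ((199 / 200 : ℝ) * (C : ℝ)) * (2 : ℝ) ^ (E : ℝ) := by
    rw [← Real.rpow_add (by norm_num)]
    apply Real.rpow_le_rpow_of_exponent_le (by norm_num)
    nlinarith
  exact le_of_mul_le_mul_right (h4.trans h5) (by positivity)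

end Pool.Agent.W18.SV.NUMc
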